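import Pool.Agent.Helper81.AD2.Goals

/-! Packet AD2-TML: connecting two orders by interchanges of commuting neighbours. -/

set_option autoImplicit false

namespace Pool.Agent.Helper83.AD2.TML

open Pool.Agent.Helper81.AD2

/-- one interchange of commuting neighbours -/
def Stp {α : Type} (r : α → α → Prop) (M M' : List α) : Prop :=
  ∃ (u w : List α) (a b : α), r a b ∧ M = u ++ a :: b :: w ∧ M' = u ++ b :: a :: w

theorem stp_cons {α : Type} {r : α → α → Prop} (c : α) {M M' : List α} (h : Stp r M M') :
    Stp r (c :: M) (c :: M') := by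
  obtain ⟨u, w, a, b, hr, rfl, rfl⟩ := h
  exact ⟨c :: u, w, a, b, hr, rfl, rfl⟩

theorem move_front {α : Type} {r : α → α → Prop} (a : α) (u : List α) :
    ∀ w : List α, (∀ b ∈ u, r b a) →
      Relation.ReflTransGen (Stp r) (u ++ a :: w) (a :: (u ++ w)) := by
  induction u using List.reverseRecOn with
  | nil => intro w _; exact Relation.ReflTransGen.refl
  | append_singleton u b ih =>
    intro w hu
    have h1 : Stp r (u ++ [b] ++ a :: w) (u ++ a :: (b :: w)) := by
      refine ⟨u, w, b, a, hu b (by simp), ?_, rfl⟩
      simp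
    have h2 := ih (b :: w) (fun x hx => hu x (by simp [hx]))
    have h3 : a :: (u ++ [b] ++ w) = a :: (u ++ b :: w) := by simp
    rw [h3]
    exact Relation.ReflTransGen.head h1 h2

theorem idx_iff {α : Type} [DecidableEq α] (a : α) (u w : List α) (x y : α)
    (hxa : x ≠ a) (hya : y ≠ a) :
    ((u ++ a :: w).idxOf x < (u ++ a :: w).idxOf y ↔ (u ++ w).idxOf x < (u ++ w).idxOf y) := by
  have e1 : ∀ z, z ≠ a → (a :: w).idxOf z = w.idxOf z + 1 := by
    intro z hz
    rw [List.idxOf_cons_ne _ (Ne.symm hz)]
  have lu : ∀ z, z ∈ u → u.idxOf z < u.length := fun z hz => List.idxOf_lt_length_of_mem hz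
  rw [List.idxOf_append, List.idxOf_append, List.idxOf_append, List.idxOf_append, e1 x hxa,
    e1 y hya]
  by_cases h1 : x ∈ u <;> by_cases h2 : y ∈ u
  · simp only [h1, h2, if_true]
  · have := lu x h1
    simp only [h1, h2, if_true, if_false]
    omega
  · have := lu y h2
    simp only [h1, h2, if_true, if_false]
    omega
  · simp only [h1, h2, if_false]
    omega

theorem core {α : Type} [DecidableEq α] (r : α → α → Prop)
    (L' : List α) : ∀ L : List α, L.Nodup → L.Perm L' →
      (∀ a ∈ L, ∀ b ∈ L, a ≠ b → ¬ r a b →
        (L.idxOf a < L.idxOf b ↔ L'.idxOf a < L'.idxOf b)) →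
      Relation.ReflTransGen (Stp r) L L' := by
  induction L' with
  | nil =>
    intro L _ hp _
    rw [List.perm_nil] at hp
    rw [hp]
  | cons a M' ih =>
    intro L hn hp H
    have haL : a ∈ L := hp.symm.subset (by simp)
    obtain ⟨u, w, rfl⟩ := List.append_of_mem haL
    have hau : a ∉ u := by
      intro h
      rw [List.nodup_append] at hn
      exact hn.2.2 a h a (by simp) rfl
    have haw : a ∉ w := by
      rw [List.nodup_append] at hn
      exact (List.nodup_cons.1 hn.2.1).1
    have hr : ∀ b ∈ u, r b a := by
      intro b hb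
      by_contra hnr
      have hba : b ≠ a := fun h => hau (h ▸ hb)
      have h1 := (H b (by simp [hb]) a (by simp) hba hnr).1 (by
        rw [List.idxOf_append, List.idxOf_append, if_pos hb, if_neg hau]
        have := List.idxOf_lt_length_of_mem hb
        omega)
      rw [List.idxOf_cons_self] at h1
      omega
    have hp2 : (u ++ w).Perm M' := by
      have h1 : (a :: (u ++ w)).Perm (a :: M') := List.perm_middle.symm.trans hp
      exact List.perm_cons a |>.1 h1
    have hn2 : (u ++ w).Nodup := by
      have h1 : (a :: (u ++ w)).Nodup := (List.perm_middle.nodup_iff).1 hn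
      exact (List.nodup_cons.1 h1).2
    have ha2 : a ∉ u ++ w := by
      rw [List.mem_append]
      rintro (h | h)
      · exact hau h
      · exact haw h
    have IH := ih (u ++ w) hn2 hp2 (by
      intro x hx y hy hxy hnr
      have hxa : x ≠ a := fun h => ha2 (h ▸ hx)
      have hya : y ≠ a := fun h => ha2 (h ▸ hy)
      have hx' : x ∈ u ++ a :: w := by
        rw [List.mem_append] at hx ⊢
        rcases hx with h | h
        · exact Or.inl h
        · exact Or.inr (List.mem_cons_of_mem _ h)
      have hy' : y ∈ u ++ a :: w := by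
        rw [List.mem_append] at hy ⊢
        rcases hy with h | h
        · exact Or.inl h
        · exact Or.inr (List.mem_cons_of_mem _ h)
      have h1 := H x hx' y hy' hxy hnr
      rw [idx_iff a u w x y hxa hya] at h1
      rw [h1, List.idxOf_cons_ne _ (Ne.symm hxa), List.idxOf_cons_ne _ (Ne.symm hya)]
      omega)
    refine (move_front a u w hr).trans ?_
    exact Relation.ReflTransGen.lift (List.cons a) (fun M N h => stp_cons a h) _ _ IH

theorem t : S_TML := by
  intro α _ r L L' _ hn hp H
  exact core r L' L hn hp H

end Pool.Agent.Helper83.AD2.TML
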